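import Mathlib
import Pool.Agent.H629R3.HolderLpMain

set_option autoImplicit false

/-! One Hölder change of variable for a family of functions: the coefficients. -/

open MeasureTheory Set Filter Topology

namespace Pool.Agent.Y295.HH

open Pool.Agent.H629R3.Stair

noncomputable section

lemma params {β : ℝ} (hβ0 : 0 < β) (hβ1 : β < 1) : ∃ b a : ℝ, 3 ≤ b ∧
    2 / b ≤ b ^ (-β) ∧ 0 < a ∧ a ≤ 1 ∧ (2 * b) ^ a ≤ 2 := by
  set b : ℝ := max 3 ((2 : ℝ) ^ (1 / (1 - β))) with hb
  have hb3 : 3 ≤ b := le_max_left _ _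
  have hb0 : 0 < b := by linarith
  have hbβ : 2 / b ≤ b ^ (-β) := by
    have h2 : (2 : ℝ) ≤ b ^ (1 - β) := by
      have h3 : (2 : ℝ) ^ (1 / (1 - β)) ≤ b := le_max_right _ _
      calc (2 : ℝ) = ((2 : ℝ) ^ (1 / (1 - β))) ^ (1 - β) := by
            rw [← Real.rpow_mul (by norm_num), one_div_mul_cancel (by linarith), Real.rpow_one]
        _ ≤ b ^ (1 - β) := Real.rpow_le_rpow (by positivity) h3 (by linarith)
    rw [div_le_iff₀ hb0]
    calc (2 : ℝ) ≤ b ^ (1 - β) := h2
      _ = b ^ (-β) * b := by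
        rw [show (1 - β) = -β + 1 by ring, Real.rpow_add hb0, Real.rpow_one]
  have h2b : (1 : ℝ) < 2 * b := by linarith
  have hl : 0 < Real.log (2 * b) := Real.log_pos h2b
  refine ⟨b, Real.log 2 / Real.log (2 * b), hb3, hbβ,
    div_pos (Real.log_pos (by norm_num)) hl, ?_, ?_⟩
  · rw [div_le_one hl]
    exact Real.log_le_log (by norm_num) (by linarith)
  · rw [Real.rpow_def_of_pos (by linarith), mul_div_cancel₀ _ hl.ne',
      Real.exp_log (by norm_num)]

variable {b : ℝ} (hb : 3 ≤ b)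

include hb

/-- real functions with a prescribed modulus of continuity -/
theorem real_coef {a : ℝ} (ha : 0 < a) (ha1 : a ≤ 1) (hab : (2 * b) ^ a ≤ 2)
    {c : ℕ → ℝ} (hc : ∀ k, 0 < c k) (hck : ∀ k, c k * ((k : ℝ) + 2) ≤ (1 / 2) ^ (k + 1))
    {β : ℝ} (hβ0 : 0 < β) (hβ1 : β ≤ 1) (hbβ : 2 / b ≤ b ^ (-β)) :
    ∃ h : UnitAddCircle ≃ₜ UnitAddCircle, (∀ x y, dist (h x) (h y) ≤ 40 * dist x y ^ a) ∧
      ∀ (f : C(UnitAddCircle, ℝ)) (M : ℝ), (∀ x, |f x| ≤ M) →
      (∀ k : ℕ, ∀ t t' : ℝ, |t - t'| ≤ c k →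
        |f (t : UnitAddCircle) - f (t' : UnitAddCircle)| ≤ (1 / 2) ^ (k + 1) / ((k : ℝ) + 2) ^ 2) →
      ∀ n : ℤ, n ≠ 0 → ‖fourierCoeff (fun x : UnitAddCircle => ((f (h x) : ℝ) : ℂ)) n‖ ≤
        (2 * M + 1) * (2 * b) * |(n : ℝ)| ^ (-β) := by
  have hcle : ∀ k, c k ≤ (1 / 2) ^ (k + 1) := by
    intro k
    have h1 := hck k
    have h2 := hc k
    have h3 : (0 : ℝ) ≤ k := Nat.cast_nonneg k
    nlinarith
  have hgeo : HasSum (fun k : ℕ => (1 / 2 : ℝ) ^ (k + 1)) 1 := by
    refine (hasSum_geometric_two' 1).congr_fun ?_ |> fun h => h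
    intro k
    rw [pow_succ, one_div_pow]
    field_simp
  have hcs : Summable c := Summable.of_nonneg_of_le (fun k => (hc k).le) hcle hgeo.summable
  have hc1 : ∑' k, c k ≤ 1 := by
    rw [← hgeo.tsum_eq]
    exact hcs.tsum_le_tsum hcle hgeo.summable
  obtain ⟨h, hh, hhold⟩ := exists_homeo hb ha ha1 hab hc hck hcs hc1
  refine ⟨h, hhold, ?_⟩
  have hcontR := hR_cont hb ha ha1 hab hc hck hcs hc1
  intro f M hM' hcf n hn
  set Φ : ℝ → ℝ := fun t => f (t : UnitAddCircle) with hΦdef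
  have hΦ : Continuous Φ := f.continuous.comp (AddCircle.continuous_mk' 1)
  have h01 : Φ 1 = Φ 0 := by
    simp only [hΦdef]
    rw [coe_one_eq]
    rfl
  have hM : ∀ t, |Φ t| ≤ M := fun t => hM' _
  have hM0 : 0 ≤ M := (abs_nonneg _).trans (hM 0)
  have hcΦ : ∀ k, ∀ t t', |t - t'| ≤ c k →
      |Φ t - Φ t'| ≤ (1 / 2) ^ (k + 1) / ((k : ℝ) + 2) ^ 2 := hcf
  set D : ℝ := (2 * M + 1) * (2 * b) with hD
  have hb0 : 0 < b := by linarith
  have hD0 : 0 ≤ D := by positivity
  have hn1 : (1 : ℝ) ≤ |(n : ℝ)| := by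
    rw [← Int.cast_abs]; exact_mod_cast Int.one_le_abs hn
  have e1 : fourierCoeff (fun x : UnitAddCircle => ((f (h x) : ℝ) : ℂ)) n =
      ∫ x in (0 : ℝ)..1, (Φ (hR b c x) : ℂ) * E n x := by
    rw [fourierCoeff_eq_intervalIntegral _ n 0]
    simp only [zero_add, div_one, one_smul]
    rw [intervalIntegral.integral_of_le zero_le_one, intervalIntegral.integral_of_le zero_le_one,
      integral_Ioc_eq_integral_Ioo, integral_Ioc_eq_integral_Ioo]
    refine setIntegral_congr_fun measurableSet_Ioo (fun x hx => ?_)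
    rw [hh x (Ioo_subset_Ico_self hx), fourier_coe_apply, smul_eq_mul, mul_comm]
    unfold E
    simp only [hΦdef, Complex.ofReal_one, div_one]
  have e2 : ∫ x in (0 : ℝ)..1, (Φ (hR b c x) : ℂ) * E n x =
      ∫ x : ℝ, ((Φ (hR b c x) - Φ 0 : ℝ) : ℂ) * E n x := by
    have i1 : IntervalIntegrable (fun x : ℝ => ((Φ (hR b c x) - Φ 0 : ℝ) : ℂ) * E n x) volume 0 1 := by
      refine Continuous.intervalIntegrable ?_ _ _
      exact (Complex.continuous_ofReal.comp ((hΦ.comp hcontR).sub continuous_const)).mul (E_cont n)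
    have i2 : IntervalIntegrable (fun x : ℝ => ((Φ 0 : ℝ) : ℂ) * E n x) volume 0 1 := by
      refine Continuous.intervalIntegrable ?_ _ _
      exact continuous_const.mul (E_cont n)
    have e3 : ∫ x in (0 : ℝ)..1, (Φ (hR b c x) : ℂ) * E n x =
        ∫ x in (0 : ℝ)..1, (((Φ (hR b c x) - Φ 0 : ℝ) : ℂ) * E n x + ((Φ 0 : ℝ) : ℂ) * E n x) := by
      congr 1; ext x; push_cast; ring
    rw [e3, intervalIntegral.integral_add i1 i2, intervalIntegral.integral_const_mul,
      integral_E_zero hn, mul_zero, add_zero, intervalIntegral.integral_of_le zero_le_one]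
    refine setIntegral_eq_integral_of_forall_compl_eq_zero (fun x hx => ?_)
    rw [mem_Ioc, not_and_or, not_lt, not_le] at hx
    rcases hx with h | h
    · rw [hR_of_nonpos hb c h, sub_self]; simp
    · rw [hR_of_one_le hb c h.le, h01, sub_self]; simp
  rw [e1, e2]
  refine (limit_bound hb hΦ h01 hM hc hcs hcΦ hβ0 hβ1 hbβ hn).trans ?_
  rw [← hD]
  refine mul_le_mul_of_nonneg_left ?_ hD0
  have hnpos : (0 : ℝ) < |(n : ℝ)| := by linarith
  rw [Real.rpow_neg hnpos.le, ← Real.inv_rpow hnpos.le]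
  refine Real.rpow_le_rpow (by positivity) ?_ hβ0.le
  rw [one_div]
  exact inv_anti₀ hnpos (by linarith)

omit hb

/-- from real functions to functions with values in a Banach space -/
theorem vec_coef {X : Type*} [NormedAddCommGroup X] [NormedSpace ℂ X] [CompleteSpace X]
    (h : UnitAddCircle ≃ₜ UnitAddCircle) (c : ℕ → ℝ) (D M : ℝ) (n : ℤ)
    (hreal : ∀ f : C(UnitAddCircle, ℝ), (∀ x, |f x| ≤ M) →
      (∀ k : ℕ, ∀ t t' : ℝ, |t - t'| ≤ c k →
        |f (t : UnitAddCircle) - f (t' : UnitAddCircle)| ≤ (1 / 2) ^ (k + 1) / ((k : ℝ) + 2) ^ 2) →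
      ‖fourierCoeff (fun x : UnitAddCircle => ((f (h x) : ℝ) : ℂ)) n‖ ≤ D)
    (lam : ℝ) (hlam : 0 < lam) (f : C(UnitAddCircle, X)) (hM : ∀ x, lam * ‖f x‖ ≤ M)
    (hf : ∀ k : ℕ, ∀ t t' : ℝ, |t - t'| ≤ c k →
        lam * ‖f (t : UnitAddCircle) - f (t' : UnitAddCircle)‖ ≤ (1 / 2) ^ (k + 1) / ((k : ℝ) + 2) ^ 2) :
    ‖fourierCoeff (fun x : UnitAddCircle => f (h x)) n‖ ≤ 2 * D / lam := by
  set v : X := fourierCoeff (fun x : UnitAddCircle => f (h x)) n with hv
  obtain ⟨φ, hφ1, hφ⟩ := exists_dual_vector'' ℂ v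
  have hfh : Continuous fun x : UnitAddCircle => f (h x) := f.continuous.comp h.continuous
  set f1 : C(UnitAddCircle, ℝ) := ⟨fun x => lam * (φ (f x)).re, by fun_prop⟩ with hf1
  set f2 : C(UnitAddCircle, ℝ) := ⟨fun x => lam * (φ (f x)).im, by fun_prop⟩ with hf2
  have hle : ∀ w : X, ‖φ w‖ ≤ ‖w‖ := by
    intro w
    refine (φ.le_opNorm w).trans ?_
    calc ‖φ‖ * ‖w‖ ≤ 1 * ‖w‖ := by gcongr
      _ = ‖w‖ := one_mul _
  have b1 := hreal f1 (fun x => by
      have h1 : |lam * (φ (f x)).re| ≤ lam * ‖f x‖ := by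
        rw [abs_mul, abs_of_pos hlam]
        have := (Complex.abs_re_le_norm (φ (f x))).trans (hle _)
        gcongr
      exact h1.trans (hM x)) (fun k t t' ht => by
      have h1 : |lam * (φ (f (t : UnitAddCircle))).re - lam * (φ (f (t' : UnitAddCircle))).re| ≤
          lam * ‖f (t : UnitAddCircle) - f (t' : UnitAddCircle)‖ := by
        rw [← mul_sub, abs_mul, abs_of_pos hlam, ← Complex.sub_re, ← map_sub]
        have := (Complex.abs_re_le_norm (φ (f (t : UnitAddCircle) - f (t' : UnitAddCircle)))).trans (hle _)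
        gcongr
      exact h1.trans (hf k t t' ht))
  have b2 := hreal f2 (fun x => by
      have h1 : |lam * (φ (f x)).im| ≤ lam * ‖f x‖ := by
        rw [abs_mul, abs_of_pos hlam]
        have := (Complex.abs_im_le_norm (φ (f x))).trans (hle _)
        gcongr
      exact h1.trans (hM x)) (fun k t t' ht => by
      have h1 : |lam * (φ (f (t : UnitAddCircle))).im - lam * (φ (f (t' : UnitAddCircle))).im| ≤
          lam * ‖f (t : UnitAddCircle) - f (t' : UnitAddCircle)‖ := by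
        rw [← mul_sub, abs_mul, abs_of_pos hlam, ← Complex.sub_im, ← map_sub]
        have := (Complex.abs_im_le_norm (φ (f (t : UnitAddCircle) - f (t' : UnitAddCircle)))).trans (hle _)
        gcongr
      exact h1.trans (hf k t t' ht))
  have e1 : (lam : ℂ) * φ v = fourierCoeff (fun x : UnitAddCircle => ((f1 (h x) : ℝ) : ℂ)) n +
      Complex.I * fourierCoeff (fun x : UnitAddCircle => ((f2 (h x) : ℝ) : ℂ)) n := by
    have c1 : Continuous fun t : UnitAddCircle => fourier (-n) t • ((f1 (h t) : ℝ) : ℂ) := by fun_prop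
    have c2 : Continuous fun t : UnitAddCircle => fourier (-n) t • ((f2 (h t) : ℝ) : ℂ) := by fun_prop
    have c3 : Continuous fun t : UnitAddCircle => fourier (-n) t • f (h t) := by fun_prop
    have i1 : Integrable (fun t : UnitAddCircle => fourier (-n) t • ((f1 (h t) : ℝ) : ℂ))
        AddCircle.haarAddCircle := c1.integrable_of_hasCompactSupport (HasCompactSupport.of_compactSpace _)
    have i2 : Integrable (fun t : UnitAddCircle => fourier (-n) t • ((f2 (h t) : ℝ) : ℂ))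
        AddCircle.haarAddCircle := c2.integrable_of_hasCompactSupport (HasCompactSupport.of_compactSpace _)
    have i3 : Integrable (fun t : UnitAddCircle => fourier (-n) t • f (h t))
        AddCircle.haarAddCircle := c3.integrable_of_hasCompactSupport (HasCompactSupport.of_compactSpace _)
    have s1 : fourierCoeff (fun x : UnitAddCircle => ((f1 (h x) : ℝ) : ℂ)) n =
        ∫ t : UnitAddCircle, fourier (-n) t • ((f1 (h t) : ℝ) : ℂ) ∂AddCircle.haarAddCircle := rfl
    have s2 : fourierCoeff (fun x : UnitAddCircle => ((f2 (h x) : ℝ) : ℂ)) n =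
        ∫ t : UnitAddCircle, fourier (-n) t • ((f2 (h t) : ℝ) : ℂ) ∂AddCircle.haarAddCircle := rfl
    have s3 : v = ∫ t : UnitAddCircle, fourier (-n) t • f (h t) ∂AddCircle.haarAddCircle := rfl
    rw [s1, s2, s3, ← ContinuousLinearMap.integral_comp_comm φ i3, ← integral_const_mul,
      ← integral_const_mul, ← integral_add i1 (i2.const_mul _)]
    apply integral_congr_ae
    refine ae_of_all _ fun t => ?_
    simp only [hf1, hf2, ContinuousMap.coe_mk, map_smul, smul_eq_mul]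
    have e2 : φ (f (h t)) = (((φ (f (h t))).re : ℝ) : ℂ) + (((φ (f (h t))).im : ℝ) : ℂ) * Complex.I :=
      (Complex.re_add_im _).symm
    rw [e2]
    simp only [Complex.add_re, Complex.add_im, Complex.mul_re, Complex.mul_im, Complex.ofReal_re,
      Complex.ofReal_im, Complex.I_re, Complex.I_im]
    push_cast
    ring
  have h3 : lam * ‖v‖ ≤ D + D := by
    have h4 : ‖(lam : ℂ) * φ v‖ = lam * ‖v‖ := by
      rw [hφ, norm_mul, Complex.norm_real, Real.norm_of_nonneg hlam.le]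
      simp
    rw [← h4, e1]
    refine (norm_add_le _ _).trans ?_
    rw [norm_mul, Complex.norm_I, one_mul]
    exact add_le_add b1 b2
  rw [le_div_iff₀ hlam]
  linarith

end

end Pool.Agent.Y295.HH
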