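import Mathlib
import Pool.Agent.Y295.HH.A

set_option autoImplicit false

/-! One Hölder change of variable for a family of functions: moduli of continuity, compact sets. -/

open MeasureTheory Set Filter Topology

namespace Pool.Agent.Y295.HH

open Pool.Agent.H629R3.Stair

noncomputable section

/-- the thresholds -/
def ep (k : ℕ) : ℝ := (1 / 2) ^ (k + 1) / ((k : ℝ) + 2) ^ 2

lemma ep_pos (k : ℕ) : 0 < ep k := by unfold ep; positivity

lemma ep_anti {k j : ℕ} (h : k ≤ j) : ep j ≤ ep k := by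
  unfold ep
  have h1 : (1 / 2 : ℝ) ^ (j + 1) ≤ (1 / 2) ^ (k + 1) :=
    pow_le_pow_of_le_one (by norm_num) (by norm_num) (by omega)
  have h2 : ((k : ℝ) + 2) ^ 2 ≤ ((j : ℝ) + 2) ^ 2 := by
    have : (k : ℝ) ≤ j := by exact_mod_cast h
    gcongr
  gcongr

/-- the abstract estimate -/
theorem abs_coef {β : ℝ} (hβ0 : 0 < β) (hβ1 : β < 1) : ∃ a C : ℝ, 0 < a ∧ a ≤ 1 ∧ 0 < C ∧
    ∀ c : ℕ → ℝ, (∀ k, 0 < c k) → (∀ k, c k * ((k : ℝ) + 2) ≤ (1 / 2) ^ (k + 1)) →
    ∃ h : UnitAddCircle ≃ₜ UnitAddCircle, (∀ x y, dist (h x) (h y) ≤ 40 * dist x y ^ a) ∧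
      ∀ (X : Type) [NormedAddCommGroup X] [NormedSpace ℂ X] [CompleteSpace X]
        (f : C(UnitAddCircle, X)) (lam : ℝ), 0 < lam →
        (∀ k : ℕ, ∀ t t' : ℝ, |t - t'| ≤ c k →
          lam * ‖f (t : UnitAddCircle) - f (t' : UnitAddCircle)‖ ≤ ep k) →
        ∀ n : ℤ, n ≠ 0 → ‖fourierCoeff (fun x : UnitAddCircle => f (h x)) n‖ ≤
          C * (lam⁻¹ + ‖f‖) * |(n : ℝ)| ^ (-β) := by
  obtain ⟨b, a, hb, hbβ, ha, ha1, hab⟩ := params hβ0 hβ1
  have hb0 : 0 < b := by linarith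
  refine ⟨a, 8 * b, ha, ha1, by positivity, ?_⟩
  intro c hc hck
  obtain ⟨h, hh, hcoef⟩ := real_coef hb ha ha1 hab hc hck hβ0 hβ1.le hbβ
  refine ⟨h, hh, ?_⟩
  intro X _ _ _ f lam hlam hf n hn
  have h1 := vec_coef h c ((2 * (lam * ‖f‖) + 1) * (2 * b) * |(n : ℝ)| ^ (-β)) (lam * ‖f‖) n
    (fun g hg1 hg2 => hcoef g _ hg1 hg2 n hn) lam hlam f (fun x => by
      have := f.norm_coe_le_norm x
      gcongr) hf
  refine h1.trans ?_
  have h2 : 0 ≤ |(n : ℝ)| ^ (-β) := by positivity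
  have h3 : 0 ≤ ‖f‖ := norm_nonneg _
  have h4 : 0 < lam⁻¹ := by positivity
  have h5 : 2 * ((2 * (lam * ‖f‖) + 1) * (2 * b) * |(n : ℝ)| ^ (-β)) / lam =
      (8 * b * ‖f‖ + 4 * b * lam⁻¹) * |(n : ℝ)| ^ (-β) := by
    field_simp
    ring
  rw [h5]
  apply mul_le_mul_of_nonneg_right _ h2
  nlinarith [mul_pos hb0 h4]

lemma circ_dist (t t' : ℝ) : dist (t : UnitAddCircle) (t' : UnitAddCircle) ≤ |t - t'| := by
  rw [dist_eq_norm, ← AddCircle.coe_sub]
  exact coe_norm_le _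

/-- functions with a given modulus of continuity -/
theorem modulus {β : ℝ} (hβ0 : 0 < β) (hβ1 : β < 1) : ∃ a C : ℝ, 0 < a ∧ a ≤ 1 ∧ 0 < C ∧
    (∀ ω : ℝ → ℝ, Tendsto ω (𝓝[>] 0) (𝓝 0) →
    ∃ h : UnitAddCircle ≃ₜ UnitAddCircle, (∀ x y, dist (h x) (h y) ≤ 40 * dist x y ^ a) ∧
      ∀ (X : Type) [NormedAddCommGroup X] [NormedSpace ℂ X] [CompleteSpace X]
        (f : C(UnitAddCircle, X)) (L : ℝ), 0 < L → (∀ x y, x ≠ y → ‖f x - f y‖ ≤ L * ω (dist x y)) →
        ∀ n : ℤ, n ≠ 0 → ‖fourierCoeff (fun x : UnitAddCircle => f (h x)) n‖ ≤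
          C * (L + ‖f‖) * |(n : ℝ)| ^ (-β)) ∧
    ∀ (X : Type) [NormedAddCommGroup X] [NormedSpace ℂ X] [CompleteSpace X]
      (K : ℕ → Set C(UnitAddCircle, X)), (∀ j, IsCompact (K j)) →
      ∃ h : UnitAddCircle ≃ₜ UnitAddCircle, (∀ x y, dist (h x) (h y) ≤ 40 * dist x y ^ a) ∧
        ∀ j, ∃ A : ℝ, 0 < A ∧ (j = 0 → A = 1) ∧ ∀ f ∈ K j, ∀ n : ℤ, n ≠ 0 →
          ‖fourierCoeff (fun x : UnitAddCircle => f (h x)) n‖ ≤
            C * (A + ‖f‖) * |(n : ℝ)| ^ (-β) := by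
  obtain ⟨a, C, ha, ha1, hC, hmain⟩ := abs_coef hβ0 hβ1
  refine ⟨a, C, ha, ha1, hC, ?_, ?_⟩
  · intro ω hω
    have h1 : ∀ k : ℕ, ∃ δ : ℝ, 0 < δ ∧ ∀ t : ℝ, 0 < t → t ≤ δ → ω t ≤ ep k := by
      intro k
      have h2 : ∀ᶠ t in 𝓝[>] (0 : ℝ), ω t < ep k := hω.eventually (gt_mem_nhds (ep_pos k))
      rw [eventually_nhdsWithin_iff, Metric.eventually_nhds_iff] at h2
      obtain ⟨δ, hδ, h3⟩ := h2
      refine ⟨δ / 2, by positivity, fun t ht htd => (h3 ?_ ht).le⟩
      rw [Real.dist_eq, sub_zero, abs_of_pos ht]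
      linarith
    choose δ hδ0 hδ using h1
    set c : ℕ → ℝ := fun k => min (δ k) ((1 / 2) ^ (k + 1) / ((k : ℝ) + 2)) with hc
    obtain ⟨h, hh, hcoef⟩ := hmain c (fun k => lt_min (hδ0 k) (by positivity)) (fun k => by
      have h1 : c k ≤ (1 / 2) ^ (k + 1) / ((k : ℝ) + 2) := min_le_right _ _
      have h2 : (0 : ℝ) < (k : ℝ) + 2 := by positivity
      rwa [le_div_iff₀ h2] at h1)
    refine ⟨h, hh, ?_⟩
    intro X _ _ _ f L hL hf n hn
    have h4 := hcoef X f L⁻¹ (by positivity) (fun k t t' ht => by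
      by_cases hxy : (t : UnitAddCircle) = (t' : UnitAddCircle)
      · rw [hxy, sub_self, norm_zero, mul_zero]
        exact (ep_pos k).le
      · have h5 := hf _ _ hxy
        have h6 : 0 < dist (t : UnitAddCircle) (t' : UnitAddCircle) := dist_pos.2 hxy
        have h7 : dist (t : UnitAddCircle) (t' : UnitAddCircle) ≤ δ k :=
          (circ_dist t t').trans (ht.trans (min_le_left _ _))
        rw [inv_mul_le_iff₀ hL]
        exact h5.trans (mul_le_mul_of_nonneg_left (hδ k _ h6 h7) hL.le)) n hn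
    rwa [inv_inv] at h4
  · intro X _ _ _ K hK
    -- bounds for the norms
    have hbd : ∀ j, ∃ M : ℝ, 0 ≤ M ∧ ∀ f ∈ K j, ‖f‖ ≤ M := by
      intro j
      obtain ⟨M, hM⟩ := (hK j).isBounded.exists_norm_le
      exact ⟨max M 0, le_max_right _ _, fun f hf => (hM f hf).trans (le_max_left _ _)⟩
    choose M hM0 hM using hbd
    -- equicontinuity
    have heq : ∀ j, ∀ ε : ℝ, 0 < ε → ∃ δ : ℝ, 0 < δ ∧ ∀ f ∈ K j, ∀ x y : UnitAddCircle,
        dist x y ≤ δ → ‖f x - f y‖ ≤ ε := by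
      intro j ε hε
      have : CompactSpace (K j) := isCompact_iff_compactSpace.1 (hK j)
      have hcont : Continuous fun p : (K j) × UnitAddCircle => (p.1 : C(UnitAddCircle, X)) p.2 := by
        fun_prop
      have hu := CompactSpace.uniformContinuous_of_continuous hcont
      rw [Metric.uniformContinuous_iff] at hu
      obtain ⟨δ, hδ, h1⟩ := hu ε hε
      refine ⟨δ / 2, by positivity, fun f hf x y hxy => ?_⟩
      have h2 := @h1 (⟨f, hf⟩, x) (⟨f, hf⟩, y) (by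
        rw [Prod.dist_eq, dist_self]
        simp only
        rw [max_lt_iff]
        exact ⟨hδ, by linarith⟩)
      rw [dist_eq_norm] at h2
      exact h2.le
    set lam : ℕ → ℝ := fun j => if j = 0 then 1 else ep j / (2 * M j + 1) with hlam
    have hlam0 : ∀ j, 0 < lam j := by
      intro j
      rw [hlam]
      simp only
      split_ifs
      · exact one_pos
      · have := hM0 j
        have := ep_pos j
        positivity
    have h1 : ∀ j k : ℕ, ∃ δ : ℝ, 0 < δ ∧ ∀ f ∈ K j, ∀ x y : UnitAddCircle,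
        dist x y ≤ δ → lam j * ‖f x - f y‖ ≤ ep k := by
      intro j k
      obtain ⟨δ, hδ, h2⟩ := heq j (ep k / lam j) (div_pos (ep_pos k) (hlam0 j))
      refine ⟨δ, hδ, fun f hf x y hxy => ?_⟩
      have h3 := h2 f hf x y hxy
      rw [le_div_iff₀ (hlam0 j)] at h3
      linarith
    choose δ hδ0 hδ using h1
    set c : ℕ → ℝ := fun k => min ((Finset.range (k + 1)).inf' ⟨0, by simp⟩ fun j => δ j k)
      ((1 / 2) ^ (k + 1) / ((k : ℝ) + 2)) with hc
    obtain ⟨h, hh, hcoef⟩ := hmain c (fun k => by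
        refine lt_min ?_ (by positivity)
        rw [Finset.lt_inf'_iff]
        exact fun j _ => hδ0 j k) (fun k => by
      have h1 : c k ≤ (1 / 2) ^ (k + 1) / ((k : ℝ) + 2) := min_le_right _ _
      have h2 : (0 : ℝ) < (k : ℝ) + 2 := by positivity
      rwa [le_div_iff₀ h2] at h1)
    refine ⟨h, hh, ?_⟩
    intro j
    refine ⟨(lam j)⁻¹, inv_pos.2 (hlam0 j), fun hj => by rw [hlam]; simp [hj], ?_⟩
    intro f hf n hn
    refine hcoef X f (lam j) (hlam0 j) (fun k t t' ht => ?_) n hn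
    rcases le_or_gt j k with hjk | hjk
    · refine hδ j k f hf _ _ ((circ_dist t t').trans (ht.trans ((min_le_left _ _).trans ?_)))
      exact Finset.inf'_le _ (Finset.mem_range.2 (by omega))
    · have hj0 : j ≠ 0 := by omega
      have h3 : ‖f (t : UnitAddCircle) - f (t' : UnitAddCircle)‖ ≤ 2 * M j := by
        refine (norm_sub_le _ _).trans ?_
        have h4 := (f.norm_coe_le_norm (t : UnitAddCircle)).trans (hM j f hf)
        have h5 := (f.norm_coe_le_norm (t' : UnitAddCircle)).trans (hM j f hf)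
        linarith
      have h6 : lam j = ep j / (2 * M j + 1) := by rw [hlam]; simp [hj0]
      have h7 : 0 < 2 * M j + 1 := by linarith [hM0 j]
      calc lam j * ‖f (t : UnitAddCircle) - f (t' : UnitAddCircle)‖
          ≤ ep j / (2 * M j + 1) * (2 * M j) := by
            rw [h6]
            have := ep_pos j
            gcongr
        _ ≤ ep j / (2 * M j + 1) * (2 * M j + 1) := by
            have := ep_pos j
            gcongr
            linarith
        _ = ep j := div_mul_cancel₀ _ h7.ne'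
        _ ≤ ep k := ep_anti hjk.le

end

end Pool.Agent.Y295.HH
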